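import Pool.Agent.Y661.HE.Stm
import Pool.Agent.H4R2.HD.BA

/-! PRB: probability bound for the error terms (job HE-PRB of helper661). -/

set_option autoImplicit false

open scoped BigOperators ENNReal
open MeasureTheory Filter

namespace Pool.Agent.Y794.HE.PRB

open Pool.Agent.H12R2.And (V ee Q)
open Pool.Agent.H4R2.HD (Av Gn ind S_KB S_KS)
open Pool.Agent.Y661.HE

/-- almost all potentials are bounded -/
theorem ae_Bd {d : ℕ} {c : ℝ} {μ : Measure ℝ} [IsProbabilityMeasure μ]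
    (h : ∀ᵐ t ∂μ, |t| ≤ c) : ∀ᵐ W ∂(PI d μ), Bd c W := by
  unfold Bd
  rw [ae_all_iff]
  intro x
  have h1 : MeasurePreserving (Function.eval x) (PI d μ) μ :=
    measurePreserving_eval_infinitePi (fun _ : Fin d → ℤ => μ) x
  exact h1.quasiMeasurePreserving.ae h

/-- bound for the kernels of the higher iterates -/
theorem iter_le (hKB : S_KB) {d : ℕ} (hd : 1 ≤ d) (N j : ℕ) (z x : V d) :
    0 ≤ (Av^[N + j] (ind z)) x ∧
      (Av^[N + j] (ind z)) x ≤ ((N + 1).factorial : ℝ) * ((Real.sqrt d)⁻¹) ^ N := by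
  refine ⟨(hKB hd (N + j) z x).1, ?_⟩
  rw [Nat.add_comm, Function.iterate_add_apply]
  refine (Pool.Agent.H4R2.HD.BA.iter_mono j (Av^[N] (ind z))
    (fun _ => ((N + 1).factorial : ℝ) * ((Real.sqrt d)⁻¹) ^ N)
    (fun y => (hKB hd N z y).2) x).trans (le_of_eq ?_)
  exact Pool.Agent.H4R2.HD.BA.iter_const hd j _ x

theorem main (hB : S_BND) (hI : S_INF) (hL : S_LOC) (hM : S_MEA) (hMen : S_MEN) (hPT : S_PT)
    (hKB : S_KB) (hKS : S_KS) : S_PRB := by
  intro d hd N K c η μ _ hc hη hμ hsmall n x hn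
  have hd0 : (0 : ℝ) < d := by exact_mod_cast hd
  have hsq : 0 < Real.sqrt d := Real.sqrt_pos.2 hd0
  have hBd : ∀ᵐ W ∂(PI d μ), Bd c W := ae_Bd hμ
  set r : ℝ := 8 * c * N / d with hr
  have hr0 : 0 ≤ r := by positivity
  set A : ℝ := ((N + 1).factorial : ℝ) * ((Real.sqrt d)⁻¹) ^ N with hA
  have hA0 : 0 < A := by positivity
  set L : ℝ := (n : ℝ) * N + 1 with hLdef
  have hL0 : 0 < L := by positivity
  set T : V d → ℝ := fun z => ∑ j ∈ Finset.range (n * N + 1), (Av^[N + j] (ind z)) x with hT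
  set b : V d → ℝ := fun z => 3 * c * r ^ n * T z with hb
  have hrn : r ^ n ≤ 1 := pow_le_one₀ hr0 hsmall
  have hrn0 : 0 ≤ r ^ n := pow_nonneg hr0 n
  have hT0 : ∀ z, 0 ≤ T z := fun z => Finset.sum_nonneg fun j _ => (iter_le hKB hd N j z x).1
  have hT1 : ∀ z, T z ≤ L * A := by
    intro z
    refine (Finset.sum_le_card_nsmul _ _ A fun j _ => (iter_le hKB hd N j z x).2).trans
      (le_of_eq ?_)
    rw [Finset.card_range, nsmul_eq_mul, hLdef]
    push_cast
    ring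
  have hT2 : ∀ F : Finset (V d), ∑ z ∈ F, T z ≤ L := by
    intro F
    rw [hT, Finset.sum_comm]
    refine (Finset.sum_le_card_nsmul _ _ 1 fun j _ => hKS hd (N + j) F x).trans (le_of_eq ?_)
    rw [Finset.card_range, nsmul_eq_mul, hLdef]
    push_cast
    ring
  have hbT : ∀ z, b z ≤ 3 * c * T z := by
    intro z
    have h1 : r ^ n * T z ≤ 1 * T z := mul_le_mul_of_nonneg_right hrn (hT0 z)
    calc b z = 3 * c * (r ^ n * T z) := by rw [hb]; ring
      _ ≤ 3 * c * (1 * T z) := mul_le_mul_of_nonneg_left h1 (by positivity)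
      _ = 3 * c * T z := by ring
  have hb0 : ∀ z, 0 ≤ b z := fun z => by
    have := hT0 z
    rw [hb]
    positivity
  set M : ℝ := (K : ℝ) * N + 1 with hMdef
  have hLM : L ≤ M := by
    rw [hLdef, hMdef]
    have h1 : (n : ℝ) ≤ K := by exact_mod_cast hn.le
    have h2 : (0 : ℝ) ≤ N := Nat.cast_nonneg N
    nlinarith
  have hM0 : 0 < M := lt_of_lt_of_le hL0 hLM
  set S : ℝ := 9 * c ^ 2 * M ^ 2 * A with hS
  have hS0 : 0 < S := by rw [hS]; positivity
  have hsum : ∑ z ∈ Q x ((n + 1) * N), b z ^ 2 ≤ S := by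
    have h1 : ∀ z ∈ Q x ((n + 1) * N), b z ^ 2 ≤ (9 * c ^ 2 * L * A) * T z := by
      intro z _
      have h2 : b z ^ 2 ≤ (3 * c * T z) ^ 2 := pow_le_pow_left₀ (hb0 z) (hbT z) 2
      have h3 : T z * T z ≤ (L * A) * T z := mul_le_mul_of_nonneg_right (hT1 z) (hT0 z)
      calc b z ^ 2 ≤ (3 * c * T z) ^ 2 := h2
        _ = 9 * c ^ 2 * (T z * T z) := by ring
        _ ≤ 9 * c ^ 2 * ((L * A) * T z) := mul_le_mul_of_nonneg_left h3 (by positivity)
        _ = _ := by ring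
    refine (Finset.sum_le_sum h1).trans ?_
    rw [← Finset.mul_sum]
    calc (9 * c ^ 2 * L * A) * ∑ z ∈ Q x ((n + 1) * N), T z ≤ (9 * c ^ 2 * L * A) * L :=
          mul_le_mul_of_nonneg_left (hT2 _) (by positivity)
      _ = 9 * c ^ 2 * (L ^ 2) * A := by ring
      _ ≤ 9 * c ^ 2 * (M ^ 2) * A := by gcongr
      _ = S := rfl
  have hmean := (hMen hd N c μ hμ n x).2.2
  have hbd : ∃ M', ∀ W, Bd c W → |(Av^[N] (gn N (PI d μ) n W)) x| ≤ M' := by
    refine ⟨2 * c * catalan (n + 1) * (c * N / d) ^ n, fun W hW => ?_⟩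
    exact Pool.Agent.H4R2.HD.BA.iter_abs hd N _ _
      (fun y => ((hB hd N c (PI d μ) hc.le hBd).2 W hW n y).2) x
  have hinf : ∀ z ∈ Q x ((n + 1) * N), ∀ (W : V d → ℝ) (s s' : ℝ), Bd c W → |s| ≤ c → |s'| ≤ c →
      |(Av^[N] (gn N (PI d μ) n (Function.update W z s))) x -
        (Av^[N] (gn N (PI d μ) n (Function.update W z s'))) x| ≤ b z := by
    intro z _ W s s' hW hs hs'
    have hu : ∀ t : ℝ, |t| ≤ c → Bd c (Function.update W z t) := by
      intro t ht y
      by_cases hy : y = z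
      · rw [hy, Function.update_self]
        exact ht
      · rw [Function.update_of_ne hy]
        exact hW y
    exact (hI hd N c (PI d μ) hc.le hBd z _ _ (hu s hs) (hu s' hs') (fun y hy => by
      rw [Function.update_of_ne hy, Function.update_of_ne hy]) n x).2.2
  have key := hPT μ c (Q x ((n + 1) * N)) (fun W => (Av^[N] (gn N (PI d μ) n W)) x) b S η hμ
    (hM N (PI d μ) n N x).2.2 (fun W W' h => (hL N (PI d μ) n x W W').2 h) hbd hinf hsum hS0 hη
  rw [hmean] at key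
  simp only [sub_zero] at key
  refine key.trans (le_of_eq ?_)
  congr 3
  rw [hS, hA, inv_pow]
  field_simp

end Pool.Agent.Y794.HE.PRB
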